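import Pool.Agent.Helper34.LConf.Quad

/-!
# The conformal map of the L-shaped corridor, part 2 (MP_35f495_pr, item E4)

`phi W H z = psi W H (sqrt z)` maps the upper half-plane conformally onto the L-shaped corridor; the
four marked boundary points are `-W²` (lower end), `0` (inner corner), `H²` (right end), `∞` (outer
corner).
-/

set_option autoImplicit false

open Complex Set Filter Topology

namespace Pool.Agent.Helper34.LConf

noncomputable section

/-! ### behaviour at `H`, `i W` and at infinity -/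

theorem tendsto_re_psi {W H : ℝ} (hW : 0 < W) (hH : 0 < H) :
    Tendsto (fun s : ℂ => (psi W H s).re) (𝓝[≠] (H : ℂ)) atTop := by
  have hpi := Real.pi_pos
  have e0 : A H (H : ℂ) = 0 := by simp [A]
  have e1 : Tendsto (fun s : ℂ => ‖A H s‖) (𝓝[≠] (H : ℂ)) (𝓝[≠] 0) := by
    rw [tendsto_nhdsWithin_iff]
    have hc : ContinuousAt (fun s : ℂ => ‖A H s‖) (H : ℂ) :=
      (continuousAt_A hH (by simpa using hH.le)).norm
    refine ⟨?_, ?_⟩
    · have := hc.tendsto
      rw [e0, norm_zero] at this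
      exact this.mono_left nhdsWithin_le_nhds
    · have h2 : ∀ᶠ s in 𝓝[≠] (H : ℂ), s + (H : ℂ) ≠ 0 := by
        have : ContinuousAt (fun s : ℂ => s + (H : ℂ)) (H : ℂ) :=
          (continuous_id.add continuous_const).continuousAt
        exact (this.eventually_ne (add_ne hH (by simpa using hH.le))).filter_mono
          nhdsWithin_le_nhds
      filter_upwards [h2, self_mem_nhdsWithin] with s h3 h4
      have h5 : A H s ≠ 0 := div_ne_zero (sub_ne_zero.2 h4) h3
      simpa using h5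
  have e2 : Tendsto (fun s : ℂ => Real.log ‖A H s‖) (𝓝[≠] (H : ℂ)) atBot :=
    Real.tendsto_log_nhdsNE_zero.comp e1
  have e3 : Tendsto (fun s : ℂ => -(H / Real.pi) * Real.log ‖A H s‖) (𝓝[≠] (H : ℂ)) atTop :=
    e2.const_mul_atBot_of_neg (by
      have : 0 < H / Real.pi := by positivity
      linarith)
  have e4 := tendsto_atTop_add_right_of_le (𝓝[≠] (H : ℂ)) (-W) e3
    (g := fun s : ℂ => W / Real.pi * arg (C W s)) (fun s => by
      have h1 := neg_pi_lt_arg (C W s)
      have h2 : W / Real.pi * (-Real.pi) = -W := by field_simp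
      rw [← h2]
      exact mul_le_mul_of_nonneg_left h1.le (by positivity))
  exact e4.congr (fun s => (psi_re W H s).symm)

theorem tendsto_im_psi {W H : ℝ} (hW : 0 < W) (hH : 0 < H) :
    Tendsto (fun s : ℂ => (psi W H s).im) (𝓝[≠] (I * W : ℂ)) atBot := by
  have hpi := Real.pi_pos
  set D : ℂ → ℂ := fun s => (s - I * W) / (s + I * W) with hD
  have hIW : (I * W : ℂ) + I * W ≠ 0 := addI_ne hW (by simpa using hW.le)
  have e1 : Tendsto (fun s : ℂ => ‖D s‖) (𝓝[≠] (I * W : ℂ)) (𝓝[≠] 0) := by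
    rw [tendsto_nhdsWithin_iff]
    have hc : ContinuousAt (fun s : ℂ => ‖D s‖) (I * W : ℂ) :=
      (((continuous_id.sub continuous_const).continuousAt).div
        ((continuous_id.add continuous_const).continuousAt) hIW).norm
    refine ⟨?_, ?_⟩
    · have := hc.tendsto
      have e0 : D (I * W : ℂ) = 0 := by simp [hD]
      rw [e0, norm_zero] at this
      exact this.mono_left nhdsWithin_le_nhds
    · have h2 : ∀ᶠ s in 𝓝[≠] (I * W : ℂ), s + (I * W : ℂ) ≠ 0 := by
        have : ContinuousAt (fun s : ℂ => s + (I * W : ℂ)) (I * W : ℂ) :=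
          (continuous_id.add continuous_const).continuousAt
        exact (this.eventually_ne hIW).filter_mono nhdsWithin_le_nhds
      filter_upwards [h2, self_mem_nhdsWithin] with s h3 h4
      have h5 : D s ≠ 0 := div_ne_zero (sub_ne_zero.2 h4) h3
      simpa using h5
  have e2 : Tendsto (fun s : ℂ => Real.log ‖D s‖) (𝓝[≠] (I * W : ℂ)) atBot :=
    Real.tendsto_log_nhdsNE_zero.comp e1
  have e2' : ∀ s, Real.log ‖D s‖ = -Real.log ‖C W s‖ := by
    intro s
    have : D s = (C W s)⁻¹ := by rw [hD, C, inv_div]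
    rw [this, norm_inv, Real.log_inv]
  have e3 : Tendsto (fun s : ℂ => W / Real.pi * Real.log ‖D s‖) (𝓝[≠] (I * W : ℂ)) atBot :=
    e2.const_mul_atBot (by positivity)
  have e4 := tendsto_atBot_add_right_of_ge (𝓝[≠] (I * W : ℂ)) (H + H) e3
    (g := fun s : ℂ => H - H / Real.pi * arg (A H s)) (fun s => by
      have h1 := neg_pi_lt_arg (A H s)
      have h2 : H / Real.pi * (-Real.pi) = -H := by field_simp
      have h3 : H / Real.pi * (-Real.pi) ≤ H / Real.pi * arg (A H s) :=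
        mul_le_mul_of_nonneg_left h1.le (by positivity)
      linarith)
  refine e4.congr (fun s => ?_)
  rw [psi_im, e2']
  ring

theorem tendsto_psi_cocompact (W H : ℝ) :
    Tendsto (psi W H) (cocompact ℂ) (𝓝 (I * H)) := by
  have aux : ∀ c : ℂ, Tendsto (fun s : ℂ => (s + c)⁻¹) (cocompact ℂ) (𝓝 0) := by
    intro c
    rw [← Metric.cobounded_eq_cocompact]
    exact tendsto_inv₀_cobounded.comp (tendsto_add_const_cobounded c)
  have hev : ∀ c : ℂ, ∀ᶠ s : ℂ in cocompact ℂ, s + c ≠ 0 := by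
    intro c
    have : {(-c : ℂ)}ᶜ ∈ cocompact ℂ := isCompact_singleton.compl_mem_cocompact
    filter_upwards [this] with s hs h
    exact hs (eq_neg_of_add_eq_zero_left h)
  have a1 : Tendsto (A H) (cocompact ℂ) (𝓝 1) := by
    have h1 : Tendsto (fun s : ℂ => 1 - 2 * H * (s + H)⁻¹) (cocompact ℂ) (𝓝 (1 - 2 * H * 0)) :=
      tendsto_const_nhds.sub ((aux H).const_mul _)
    rw [mul_zero, sub_zero] at h1
    refine h1.congr' ?_
    filter_upwards [hev H] with s hs
    rw [A]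
    field_simp
    ring
  have c1 : Tendsto (C W) (cocompact ℂ) (𝓝 1) := by
    have h1 : Tendsto (fun s : ℂ => 1 + 2 * (I * W) * (s + -(I * W))⁻¹) (cocompact ℂ)
        (𝓝 (1 + 2 * (I * W) * 0)) :=
      tendsto_const_nhds.add ((aux _).const_mul _)
    rw [mul_zero, add_zero] at h1
    refine h1.congr' ?_
    filter_upwards [hev (-(I * W))] with s hs
    rw [← sub_eq_add_neg] at hs
    rw [C, ← sub_eq_add_neg]
    field_simp
    ring
  have hlog : Tendsto log (𝓝 (1 : ℂ)) (𝓝 0) := by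
    have := (continuousAt_clog (x := 1) (by simp)).tendsto
    rwa [log_one] at this
  have h2 := ((tendsto_const_nhds (x := I * (H : ℂ)) (f := cocompact ℂ)).sub
    ((hlog.comp a1).const_mul (((H / Real.pi : ℝ) : ℂ)))).sub
    (((hlog.comp c1).const_mul (((W / Real.pi : ℝ) : ℂ))).const_mul I)
  have e : psi W H = fun s => I * (H : ℂ) - ((H / Real.pi : ℝ) : ℂ) * log (A H s) -
      I * (((W / Real.pi : ℝ) : ℂ) * log (C W s)) := rfl
  rw [e]
  simpa [Function.comp_def] using h2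

/-! ### boundary values on the quadrant -/

theorem A_ofReal (H t : ℝ) : A H (t : ℂ) = (((t - H) / (t + H) : ℝ) : ℂ) := by
  simp [A]

theorem C_I_mul (W t : ℝ) : C W (I * t) = (((t + W) / (t - W) : ℝ) : ℂ) := by
  have : C W (I * t) = (I * (t + W)) / (I * (t - W)) := by
    rw [C]; ring
  rw [this, mul_div_mul_left _ _ I_ne_zero]
  push_cast
  rfl

/-- the Moebius map on the unit circle: `(u + i)/(u - i) = exp (i (π - 2 arctan u))` -/
theorem circ (u : ℝ) : ((u : ℂ) + I) / (u - I) =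
    Real.cos (Real.pi - 2 * Real.arctan u) + Real.sin (Real.pi - 2 * Real.arctan u) * I := by
  have hc : Real.cos (Real.arctan u) ^ 2 = 1 / (1 + u ^ 2) := Real.cos_sq_arctan u
  have hpos : 0 < 1 + u ^ 2 := by positivity
  have h1 : Real.cos (Real.pi - 2 * Real.arctan u) = (u ^ 2 - 1) / (1 + u ^ 2) := by
    rw [Real.cos_pi_sub, Real.cos_two_mul, hc]
    field_simp
    ring
  have h2 : Real.sin (Real.pi - 2 * Real.arctan u) = 2 * u / (1 + u ^ 2) := by
    rw [Real.sin_pi_sub, Real.sin_two_mul]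
    have h3 : Real.sin (Real.arctan u) = u * Real.cos (Real.arctan u) := by
      rw [Real.sin_arctan, Real.cos_arctan]; ring
    rw [h3]
    have : 2 * (u * Real.cos (Real.arctan u)) * Real.cos (Real.arctan u)
        = 2 * u * Real.cos (Real.arctan u) ^ 2 := by ring
    rw [this, hc]
    ring
  rw [h1, h2]
  have hne : (u : ℂ) - I ≠ 0 := by
    intro h
    have := congrArg Complex.im h
    simp at this
  have hne2 : (1 : ℂ) + (u : ℂ) ^ 2 ≠ 0 := by exact_mod_cast hpos.ne'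
  rw [div_eq_iff hne]
  push_cast
  field_simp
  linear_combination (2 * (u : ℂ)) * I_sq

theorem arg_circ {u : ℝ} (hu : 0 ≤ u) : arg (((u : ℂ) + I) / (u - I)) =
    Real.pi - 2 * Real.arctan u := by
  have h0 : 0 ≤ Real.arctan u := Real.arctan_nonneg.2 hu
  have h1 := Real.arctan_lt_pi_div_two u
  have hpi := Real.pi_pos
  rw [circ, ofReal_cos, ofReal_sin]
  exact arg_cos_add_sin_mul_I ⟨by linarith, by linarith⟩

theorem norm_circ (u : ℝ) : ‖((u : ℂ) + I) / (u - I)‖ = 1 := by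
  rw [circ, ofReal_cos, ofReal_sin, norm_cos_add_sin_mul_I]

theorem C_ofReal {W : ℝ} (hW : 0 < W) (t : ℝ) :
    C W (t : ℂ) = (((t / W : ℝ) : ℂ) + I) / (((t / W : ℝ) : ℂ) - I) := by
  have hW' : (W : ℂ) ≠ 0 := by exact_mod_cast hW.ne'
  have h1 : ((t / W : ℝ) : ℂ) + I = (t + I * W) / W := by push_cast; field_simp
  have h2 : ((t / W : ℝ) : ℂ) - I = (t - I * W) / W := by push_cast; field_simp
  rw [h1, h2, div_div_div_cancel_right₀ hW', C]

theorem A_I_mul {H : ℝ} (hH : 0 < H) (t : ℝ) :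
    A H (I * t) = (((t / H : ℝ) : ℂ) + I) / (((t / H : ℝ) : ℂ) - I) := by
  have hH' : (H : ℂ) ≠ 0 := by exact_mod_cast hH.ne'
  have h1 : ((t / H : ℝ) : ℂ) + I = (-I * (I * t - H)) / H := by
    push_cast; field_simp; linear_combination ((t : ℂ)) * I_sq
  have h2 : ((t / H : ℝ) : ℂ) - I = (-I * (I * t + H)) / H := by
    push_cast; field_simp; linear_combination ((t : ℂ)) * I_sq
  rw [h1, h2, div_div_div_cancel_right₀ hH', mul_div_mul_left _ _ (neg_ne_zero.2 I_ne_zero), A]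

/-- the boundary function on the horizontal walls -/
def bh (W H t : ℝ) : ℝ :=
  -(H / Real.pi) * (Real.log (t - H) - Real.log (t + H)) + (W - 2 * W / Real.pi * Real.arctan (t / W))

theorem psi_re_ofReal {W H : ℝ} (hW : 0 < W) (hH : 0 < H) {t : ℝ} (ht : 0 ≤ t) (htH : t ≠ H) :
    (psi W H (t : ℂ)).re = bh W H t := by
  have h1 : Real.log ‖A H (t : ℂ)‖ = Real.log (t - H) - Real.log (t + H) := by
    rw [A_ofReal, norm_real, Real.norm_eq_abs, Real.log_abs,
      Real.log_div (sub_ne_zero.2 htH) (by positivity)]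
  have h2 : arg (C W (t : ℂ)) = Real.pi - 2 * Real.arctan (t / W) := by
    rw [C_ofReal hW, arg_circ (by positivity)]
  rw [psi_re, h1, h2, bh]
  have := Real.pi_ne_zero
  field_simp

theorem psi_im_ofReal_lt {W H : ℝ} (hW : 0 < W) (hH : 0 < H) {t : ℝ} (ht : 0 ≤ t) (htH : t < H) :
    (psi W H (t : ℂ)).im = 0 := by
  have h1 : arg (A H (t : ℂ)) = Real.pi := by
    rw [A_ofReal, arg_ofReal_of_neg (div_neg_of_neg_of_pos (by linarith) (by linarith))]
  have h2 : Real.log ‖C W (t : ℂ)‖ = 0 := by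
    rw [C_ofReal hW, norm_circ, Real.log_one]
  rw [psi_im, h1, h2]
  have := Real.pi_ne_zero
  field_simp
  ring

theorem psi_im_ofReal_gt {W H : ℝ} (hW : 0 < W) (hH : 0 < H) {t : ℝ} (htH : H < t) :
    (psi W H (t : ℂ)).im = H := by
  have h1 : arg (A H (t : ℂ)) = 0 := by
    rw [A_ofReal, arg_ofReal_of_nonneg (div_nonneg (by linarith) (by linarith))]
  have h2 : Real.log ‖C W (t : ℂ)‖ = 0 := by
    rw [C_ofReal hW, norm_circ, Real.log_one]
  rw [psi_im, h1, h2]
  ring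

theorem psi_im_I_mul {W H : ℝ} (hW : 0 < W) (hH : 0 < H) {t : ℝ} (ht : 0 ≤ t) (htW : t ≠ W) :
    (psi W H (I * t)).im = H - bh H W t := by
  have h1 : Real.log ‖C W (I * t)‖ = Real.log (t + W) - Real.log (t - W) := by
    rw [C_I_mul, norm_real, Real.norm_eq_abs, Real.log_abs,
      Real.log_div (by positivity) (sub_ne_zero.2 htW)]
  have h2 : arg (A H (I * t)) = Real.pi - 2 * Real.arctan (t / H) := by
    rw [A_I_mul hH, arg_circ (by positivity)]
  rw [psi_im, h1, h2, bh]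
  have := Real.pi_ne_zero
  field_simp
  ring

theorem psi_re_I_mul_lt {W H : ℝ} (hW : 0 < W) (hH : 0 < H) {t : ℝ} (ht : 0 ≤ t) (htW : t < W) :
    (psi W H (I * t)).re = W := by
  have h1 : arg (C W (I * t)) = Real.pi := by
    rw [C_I_mul, arg_ofReal_of_neg (div_neg_of_pos_of_neg (by linarith) (by linarith))]
  have h2 : Real.log ‖A H (I * t)‖ = 0 := by
    rw [A_I_mul hH, norm_circ, Real.log_one]
  rw [psi_re, h1, h2]
  have := Real.pi_ne_zero
  field_simp
  ring

theorem psi_re_I_mul_gt {W H : ℝ} (hW : 0 < W) (hH : 0 < H) {t : ℝ} (htW : W < t) :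
    (psi W H (I * t)).re = 0 := by
  have h1 : arg (C W (I * t)) = 0 := by
    rw [C_I_mul, arg_ofReal_of_nonneg (div_nonneg (by linarith) (by linarith))]
  have h2 : Real.log ‖A H (I * t)‖ = 0 := by
    rw [A_I_mul hH, norm_circ, Real.log_one]
  rw [psi_re, h1, h2]
  ring

theorem bh_zero (W H : ℝ) : bh W H 0 = W := by
  rw [bh]
  simp

theorem psi_zero {W H : ℝ} (hW : 0 < W) (hH : 0 < H) : psi W H 0 = W := by
  apply Complex.ext
  · have := psi_re_ofReal hW hH (le_refl 0) hH.ne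
    rw [bh_zero W H] at this
    simpa using this
  · have := psi_im_ofReal_lt hW hH (le_refl 0) hH
    simpa using this

/-! ### the boundary function -/

theorem hasDerivAt_bh {W H t : ℝ} (hW : 0 < W) (h1 : t ≠ H) (h2 : t + H ≠ 0) :
    HasDerivAt (bh W H) (-(2 / Real.pi) * (H ^ 2 / (t ^ 2 - H ^ 2) + W ^ 2 / (t ^ 2 + W ^ 2))) t := by
  have n1 : t - H ≠ 0 := sub_ne_zero.2 h1
  have e1 : HasDerivAt (fun y : ℝ => Real.log (y - H)) (1 / (t - H)) t :=
    ((hasDerivAt_id t).sub_const H).log n1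
  have e2 : HasDerivAt (fun y : ℝ => Real.log (y + H)) (1 / (t + H)) t :=
    ((hasDerivAt_id t).add_const H).log h2
  have e3 : HasDerivAt (fun y : ℝ => Real.arctan (y / W)) (1 / (1 + (t / W) ^ 2) * (1 / W)) t :=
    ((hasDerivAt_id t).div_const W).arctan
  have e4 := ((e1.sub e2).const_mul (-(H / Real.pi))).add
    ((e3.const_mul (2 * W / Real.pi)).const_sub W)
  have e5 : HasDerivAt (bh W H) (-(H / Real.pi) * (1 / (t - H) - 1 / (t + H)) +
      -(2 * W / Real.pi * (1 / (1 + (t / W) ^ 2) * (1 / W)))) t := e4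
  convert e5 using 1
  have h3 : t ^ 2 - H ^ 2 = (t - H) * (t + H) := by ring
  have h4 : t ^ 2 + W ^ 2 ≠ 0 := by positivity
  have h5 : 1 + (t / W) ^ 2 = (t ^ 2 + W ^ 2) / W ^ 2 := by field_simp; ring
  have hpi := Real.pi_ne_zero
  rw [h3, h5]
  field_simp
  ring

theorem continuousOn_bh {W H : ℝ} (hW : 0 < W) (hH : 0 < H) :
    ContinuousOn (bh W H) (Ici 0 \ {H}) := by
  intro t ht
  have h1 : t ≠ H := fun h => ht.2 (by rw [h]; rfl)
  have h2 : 0 ≤ t := ht.1
  exact (hasDerivAt_bh hW h1 (by positivity)).continuousAt.continuousWithinAt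

theorem strictMonoOn_bh {W H : ℝ} (hW : 0 < W) (hH : 0 < H) :
    StrictMonoOn (bh W H) (Ico 0 H) := by
  apply strictMonoOn_of_deriv_pos (convex_Ico _ _)
  · exact (continuousOn_bh hW hH).mono (fun t ht => ⟨ht.1, fun h => ht.2.ne h⟩)
  · intro t ht
    rw [interior_Ico] at ht
    rw [(hasDerivAt_bh hW ht.2.ne (by linarith [ht.1])).deriv]
    have h0 := ht.1
    have h1 : t ^ 2 < H ^ 2 := by nlinarith [ht.1, ht.2]
    have h2 : H ^ 2 / (t ^ 2 - H ^ 2) < -1 := by
      rw [div_lt_iff_of_neg (by linarith)]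
      have := pow_pos ht.1 2
      linarith
    have h3 : W ^ 2 / (t ^ 2 + W ^ 2) < 1 := by
      rw [div_lt_one (by positivity)]
      have := pow_pos ht.1 2
      linarith
    have h4 : 0 < 2 / Real.pi := by have := Real.pi_pos; positivity
    nlinarith

theorem strictAntiOn_bh {W H : ℝ} (hW : 0 < W) (hH : 0 < H) :
    StrictAntiOn (bh W H) (Ioi H) := by
  apply strictAntiOn_of_deriv_neg (convex_Ioi _)
  · exact (continuousOn_bh hW hH).mono (fun t ht => ⟨hH.le.trans (mem_Ioi.1 ht).le,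
      fun h => (mem_Ioi.1 ht).ne' h⟩)
  · intro t ht
    rw [interior_Ioi] at ht
    have ht' : H < t := ht
    rw [(hasDerivAt_bh hW ht'.ne' (by linarith)).deriv]
    have h1 : 0 < t ^ 2 - H ^ 2 := by nlinarith
    have h2 : 0 < H ^ 2 / (t ^ 2 - H ^ 2) := by positivity
    have h3 : 0 < W ^ 2 / (t ^ 2 + W ^ 2) := by positivity
    have h4 : 0 < 2 / Real.pi := by have := Real.pi_pos; positivity
    nlinarith

theorem tendsto_ofReal_punctured (H : ℝ) :
    Tendsto (fun t : ℝ => (t : ℂ)) (𝓝[≠] H) (𝓝[≠] (H : ℂ)) := by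
  rw [tendsto_nhdsWithin_iff]
  refine ⟨(continuous_ofReal.tendsto _).mono_left nhdsWithin_le_nhds, ?_⟩
  filter_upwards [self_mem_nhdsWithin] with t ht h
  exact ht (ofReal_injective h)

theorem tendsto_bh {W H : ℝ} (hW : 0 < W) (hH : 0 < H) : Tendsto (bh W H) (𝓝[≠] H) atTop := by
  have h1 := (tendsto_re_psi hW hH).comp (tendsto_ofReal_punctured H)
  refine h1.congr' ?_
  have h2 : ∀ᶠ t in 𝓝[≠] H, 0 ≤ t :=
    ((lt_mem_nhds hH).filter_mono nhdsWithin_le_nhds).mono (fun _ h => le_of_lt h)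
  filter_upwards [h2, self_mem_nhdsWithin] with t h3 h4
  exact psi_re_ofReal hW hH h3 h4

theorem tendsto_bh_atTop {W H : ℝ} (hW : 0 < W) (hH : 0 < H) :
    Tendsto (bh W H) atTop (𝓝 0) := by
  have h0 : Tendsto (fun t : ℝ => (t : ℂ)) atTop (cocompact ℂ) := by
    rw [← Metric.cobounded_eq_cocompact, ← tendsto_norm_atTop_iff_cobounded]
    simpa using tendsto_abs_atTop_atTop
  have h1 := (continuous_re.tendsto _).comp ((tendsto_psi_cocompact W H).comp h0)
  have h2 : (I * (H : ℂ)).re = 0 := by simp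
  rw [h2] at h1
  refine h1.congr' ?_
  filter_upwards [eventually_gt_atTop H] with t ht
  exact psi_re_ofReal hW hH (by linarith) ht.ne'

theorem bijOn_bh_lt {W H : ℝ} (hW : 0 < W) (hH : 0 < H) : BijOn (bh W H) (Ioo 0 H) (Ioi W) := by
  have hmono := strictMonoOn_bh hW hH
  refine ⟨?_, (hmono.mono Ioo_subset_Ico_self).injOn, ?_⟩
  · intro t ht
    have := hmono (a := 0) ⟨le_refl _, hH⟩ (b := t) ⟨ht.1.le, ht.2⟩ ht.1
    rw [bh_zero W H] at this
    exact this
  · have : NeBot (𝓝[Ioo 0 H] (0 : ℝ)) := by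
      apply mem_closure_iff_nhdsWithin_neBot.1
      rw [closure_Ioo hH.ne]
      exact ⟨le_refl _, hH.le⟩
    have : NeBot (𝓝[Ioo 0 H] H) := by
      apply mem_closure_iff_nhdsWithin_neBot.1
      rw [closure_Ioo hH.ne]
      exact ⟨hH.le, le_refl _⟩
    apply isPreconnected_Ioo.intermediate_value_Ioi (l₁ := 𝓝[Ioo 0 H] (0 : ℝ))
      (l₂ := 𝓝[Ioo 0 H] H)
    · rw [le_principal_iff]; exact self_mem_nhdsWithin
    · rw [le_principal_iff]; exact self_mem_nhdsWithin
    · exact (continuousOn_bh hW hH).mono (fun t ht => ⟨ht.1.le, fun h => ht.2.ne h⟩)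
    · have h1 : ContinuousAt (bh W H) 0 :=
        (hasDerivAt_bh hW hH.ne (by simpa using hH.ne')).continuousAt
      have h2 := h1.tendsto
      rw [bh_zero W H] at h2
      exact h2.mono_left nhdsWithin_le_nhds
    · exact (tendsto_bh hW hH).mono_left (nhdsWithin_mono _ (fun x hx => ne_of_lt hx.2))

theorem bijOn_bh_gt {W H : ℝ} (hW : 0 < W) (hH : 0 < H) : BijOn (bh W H) (Ioi H) (Ioi 0) := by
  have hanti := strictAntiOn_bh hW hH
  refine ⟨?_, hanti.injOn, ?_⟩
  · intro t ht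
    have ht' : H < t := ht
    by_contra hcon
    have h1 : bh W H t ≤ 0 := not_lt.1 hcon
    have h2 : bh W H (t + 1) < bh W H t := hanti ht (by show H < t + 1; linarith) (by linarith)
    have h3 : ∀ᶠ s in atTop, bh W H (t + 1) < bh W H s :=
      (tendsto_bh_atTop hW hH).eventually (lt_mem_nhds (by linarith))
    obtain ⟨s, hs1, hs2⟩ := (h3.and (eventually_gt_atTop (t + 1))).exists
    have := hanti (a := t + 1) (by show H < t + 1; linarith) (b := s)
      (by show H < s; linarith) hs2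
    linarith
  · apply isPreconnected_Ioi.intermediate_value_Ioi (l₁ := atTop) (l₂ := 𝓝[>] H)
    · rw [le_principal_iff]; exact Ioi_mem_atTop H
    · rw [le_principal_iff]; exact self_mem_nhdsWithin
    · exact (continuousOn_bh hW hH).mono (fun t ht => ⟨hH.le.trans (mem_Ioi.1 ht).le,
        fun h => (mem_Ioi.1 ht).ne' h⟩)
    · exact tendsto_bh_atTop hW hH
    · exact (tendsto_bh hW hH).mono_left (nhdsWithin_mono _ (fun x hx => ne_of_gt hx))

theorem le_bh {W H t : ℝ} (hW : 0 < W) (hH : 0 < H) (h0 : 0 ≤ t) (h1 : t < H) : W ≤ bh W H t := by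
  have := (strictMonoOn_bh hW hH).monotoneOn (a := 0) ⟨le_refl _, hH⟩ (b := t) ⟨h0, h1⟩ h0
  rwa [bh_zero W H] at this

/-! ### surjectivity -/

theorem isPreconnected_LD {W H : ℝ} (hW : 0 < W) (hH : 0 < H) : IsPreconnected (LD W H) := by
  have e : LD W H = {w : ℂ | (0 < w.re ∧ w.re < W) ∧ w.im < H} ∪
      {w : ℂ | 0 < w.re ∧ (0 < w.im ∧ w.im < H)} := by
    ext w
    simp only [LD, mem_ofPred_eq, mem_union]
    constructor
    · rintro ⟨h1, h2, h3⟩
      by_cases h4 : w.re < W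
      · exact Or.inl ⟨⟨h1, h4⟩, h2⟩
      · right
        push Not at h4
        refine ⟨h1, ?_, h2⟩
        by_contra h5
        exact h3 ⟨h4, not_lt.1 h5⟩
    · rintro (⟨⟨h1, h2⟩, h3⟩ | ⟨h1, h2, h3⟩)
      · exact ⟨h1, h3, fun h => by linarith [h.1]⟩
      · exact ⟨h1, h3, fun h => by linarith [h.2]⟩
  rw [e]
  have c1 : Convex ℝ {w : ℂ | (0 < w.re ∧ w.re < W) ∧ w.im < H} :=
    ((convex_halfSpace_re_gt 0).inter (convex_halfSpace_re_lt W)).inter (convex_halfSpace_im_lt H)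
  have c2 : Convex ℝ {w : ℂ | 0 < w.re ∧ (0 < w.im ∧ w.im < H)} :=
    (convex_halfSpace_re_gt 0).inter ((convex_halfSpace_im_gt 0).inter (convex_halfSpace_im_lt H))
  refine IsPreconnected.union ((W / 2 : ℝ) + (H / 2 : ℝ) * I : ℂ) ?_ ?_ c1.isPreconnected
    c2.isPreconnected
  · refine ⟨⟨?_, ?_⟩, ?_⟩ <;> simp <;> linarith
  · refine ⟨?_, ?_, ?_⟩ <;> simp <;> linarith

theorem bd_notMem {W H : ℝ} (hW : 0 < W) (hH : 0 < H) {y : ℂ} (hy : y ∈ QC) (hyQ : y ∉ Q)
    (h1 : y ≠ I * W) (h2 : y ≠ H) : psi W H y ∉ LD W H := by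
  rintro ⟨k1, k2, k3⟩
  have hy' : y.im = 0 ∨ y.re = 0 := by
    by_contra h
    push Not at h
    exact hyQ ⟨lt_of_le_of_ne hy.1 (Ne.symm h.2), lt_of_le_of_ne hy.2 (Ne.symm h.1)⟩
  rcases hy' with h | h
  · have e : y = ((y.re : ℝ) : ℂ) := Complex.ext (by simp) (by simp [h])
    have hne : y.re ≠ H := fun h' => h2 (by rw [e, h'])
    rw [e] at k1 k2 k3
    rcases lt_or_gt_of_ne hne with h' | h'
    · apply k3
      refine ⟨?_, (psi_im_ofReal_lt hW hH hy.1 h').le⟩
      rw [psi_re_ofReal hW hH hy.1 h'.ne]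
      exact le_bh hW hH hy.1 h'
    · rw [psi_im_ofReal_gt hW hH h'] at k2
      exact lt_irrefl _ k2
  · have e : y = I * ((y.im : ℝ) : ℂ) := Complex.ext (by simp [h]) (by simp)
    have hne : y.im ≠ W := fun h' => h1 (by rw [e, h'])
    rw [e] at k1 k2 k3
    rcases lt_or_gt_of_ne hne with h' | h'
    · apply k3
      refine ⟨(psi_re_I_mul_lt hW hH hy.2 h').ge, ?_⟩
      rw [psi_im_I_mul hW hH hy.2 h'.ne]
      have := le_bh hH hW hy.2 h'
      linarith
    · rw [psi_re_I_mul_gt hW hH h'] at k1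
      exact lt_irrefl _ k1

theorem isClosed_QC : IsClosed QC :=
  (isClosed_le continuous_const continuous_re).inter (isClosed_le continuous_const continuous_im)

theorem surjOn_psi {W H : ℝ} (hW : 0 < W) (hH : 0 < H) : LD W H ⊆ psi W H '' Q := by
  apply (isPreconnected_LD hW hH).subset_of_closure_inter_subset (isOpen_image_psi hW hH)
  · have h1 : (1 + I : ℂ) ∈ Q := by refine ⟨?_, ?_⟩ <;> simp
    exact ⟨psi W H (1 + I), mapsTo_psi hW hH h1, ⟨1 + I, h1, rfl⟩⟩
  · rintro w ⟨hw, hwD⟩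
    obtain ⟨x, hx, hxw⟩ := mem_closure_iff_seq_limit.1 hw
    choose z hz hzx using hx
    have hlim : Tendsto (fun n => psi W H (z n)) atTop (𝓝 w) := hxw.congr (fun n => (hzx n).symm)
    -- the sequence `z` is frequently bounded
    have hb : ∃ R : ℝ, ∃ᶠ n in atTop, z n ∈ Metric.closedBall (0 : ℂ) R := by
      by_contra hcon
      push Not at hcon
      have h1 : Tendsto z atTop (cocompact ℂ) := by
        rw [← Metric.cobounded_eq_cocompact, ← tendsto_norm_atTop_iff_cobounded, tendsto_atTop]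
        intro b
        filter_upwards [hcon b] with n hn
        rw [mem_closedBall_zero_iff] at hn
        exact (not_le.1 hn).le
      have h2 := tendsto_nhds_unique ((tendsto_psi_cocompact W H).comp h1) hlim
      have h3 := hwD.1
      rw [← h2] at h3
      simp at h3
    obtain ⟨R, hR⟩ := hb
    obtain ⟨y, -, φ, hφ, hy⟩ := tendsto_subseq_of_frequently_bounded
      Metric.isBounded_closedBall hR
    have hyC : y ∈ QC := isClosed_QC.mem_of_tendsto hy
      (Eventually.of_forall (fun n => ⟨(hz (φ n)).1.le, (hz (φ n)).2.le⟩))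
    have hlim' : Tendsto (fun n => psi W H (z (φ n))) atTop (𝓝 w) := hlim.comp hφ.tendsto_atTop
    by_cases hyQ : y ∈ Q
    · have h1 : Tendsto (fun n => psi W H (z (φ n))) atTop (𝓝 (psi W H y)) :=
        (hasStrictDerivAt_psi hW hH hyQ).hasDerivAt.continuousAt.tendsto.comp hy
      exact ⟨y, hyQ, tendsto_nhds_unique h1 hlim'⟩
    · exfalso
      by_cases h1 : y = I * W
      · have h2 : Tendsto (fun n => z (φ n)) atTop (𝓝[≠] (I * W)) := by
          rw [tendsto_nhdsWithin_iff]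
          exact ⟨by rw [← h1]; exact hy, Eventually.of_forall (fun n => ne_IW (hz (φ n)))⟩
        have h3 := (tendsto_im_psi hW hH).comp h2
        exact not_tendsto_nhds_of_tendsto_atBot h3 _ ((continuous_im.tendsto w).comp hlim')
      · by_cases h2 : y = H
        · have h3 : Tendsto (fun n => z (φ n)) atTop (𝓝[≠] (H : ℂ)) := by
            rw [tendsto_nhdsWithin_iff]
            exact ⟨by rw [← h2]; exact hy, Eventually.of_forall (fun n => ne_H (hz (φ n)))⟩
          have h4 := (tendsto_re_psi hW hH).comp h3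
          exact not_tendsto_nhds_of_tendsto_atTop h4 _ ((continuous_re.tendsto w).comp hlim')
        · have h3 := continuousWithinAt_psi hW hH hyC h1 h2
          have h4 : Tendsto (fun n => z (φ n)) atTop (𝓝[QC] y) := by
            rw [tendsto_nhdsWithin_iff]
            exact ⟨hy, Eventually.of_forall (fun n => ⟨(hz (φ n)).1.le, (hz (φ n)).2.le⟩)⟩
          have h5 : psi W H y = w := tendsto_nhds_unique (h3.tendsto.comp h4) hlim'
          rw [← h5] at hwD
          exact bd_notMem hW hH hyC hyQ h1 h2 hwD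

theorem bijOn_psi {W H : ℝ} (hW : 0 < W) (hH : 0 < H) : BijOn (psi W H) Q (LD W H) :=
  ⟨mapsTo_psi hW hH, injOn_psi hW hH, surjOn_psi hW hH⟩

/-! ### the square root -/

/-- the square root of the closed upper half-plane onto the closed quadrant -/
def sq (z : ℂ) : ℂ := z ^ (2⁻¹ : ℂ)

theorem sq_sq (z : ℂ) : sq z ^ 2 = z := by
  have h := cpow_nat_inv_pow z (n := 2) (by norm_num)
  rw [sq]
  exact_mod_cast h

theorem sq_of_sq {s : ℂ} (hs : s ∈ QC) : sq (s ^ 2) = s := by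
  have hpi := Real.pi_pos
  have h1 : 0 ≤ arg s := arg_nonneg_iff.2 hs.2
  have h2 : arg s ≤ Real.pi / 2 := (abs_le.1 (abs_arg_le_pi_div_two_iff.2 hs.1)).2
  have := pow_cpow_nat_inv (x := s) (n := 2) (by norm_num) (by push_cast; linarith)
    (by push_cast; linarith)
  simpa [sq] using this

theorem sq_zero : sq 0 = 0 := by simp [sq]

theorem sq_eq_exp {z : ℂ} (hz : z ≠ 0) : sq z = exp (log z * 2⁻¹) := by
  rw [sq, cpow_def_of_ne_zero hz]

theorem half_re (z : ℂ) : (z * 2⁻¹).re = z.re / 2 := by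
  have : z * 2⁻¹ = ((2⁻¹ : ℝ) : ℂ) * z := by push_cast; ring
  rw [this, re_ofReal_mul]; ring

theorem half_im (z : ℂ) : (z * 2⁻¹).im = z.im / 2 := by
  have : z * 2⁻¹ = ((2⁻¹ : ℝ) : ℂ) * z := by push_cast; ring
  rw [this, im_ofReal_mul]; ring

theorem sq_mem_Q {z : ℂ} (hz : 0 < z.im) : sq z ∈ Q := by
  have h0 : z ≠ 0 := by rintro rfl; simp at hz
  have h1 := arg_pos_of_im_pos hz
  have h2 := arg_lt_pi_of_im_pos hz
  rw [sq_eq_exp h0]
  refine ⟨?_, ?_⟩
  · rw [exp_re, half_im, log_im]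
    exact mul_pos (Real.exp_pos _) (Real.cos_pos_of_mem_Ioo ⟨by linarith, by linarith⟩)
  · rw [exp_im, half_im, log_im]
    exact mul_pos (Real.exp_pos _) (Real.sin_pos_of_pos_of_lt_pi (by linarith) (by linarith))

theorem sq_mem_QC {z : ℂ} (hz : 0 ≤ z.im) : sq z ∈ QC := by
  by_cases h0 : z = 0
  · rw [h0, sq_zero]; exact ⟨by simp, by simp⟩
  · have h1 := arg_nonneg_iff.2 hz
    have h2 := arg_le_pi z
    rw [sq_eq_exp h0]
    refine ⟨?_, ?_⟩
    · rw [exp_re, half_im, log_im]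
      exact mul_nonneg (Real.exp_pos _).le
        (Real.cos_nonneg_of_mem_Icc ⟨by linarith, by linarith⟩)
    · rw [exp_im, half_im, log_im]
      exact mul_nonneg (Real.exp_pos _).le
        (Real.sin_nonneg_of_nonneg_of_le_pi (by linarith) (by linarith))

theorem im_sq_pos {s : ℂ} (hs : s ∈ Q) : 0 < (s ^ 2).im := by
  have e0 : (s ^ 2).im = 2 * s.re * s.im := by rw [_root_.sq, mul_im]; ring
  rw [e0]
  have := hs.1
  have := hs.2
  positivity

theorem bijOn_sq : BijOn sq {z | 0 < z.im} Q := by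
  refine ⟨fun z hz => sq_mem_Q hz, ?_, ?_⟩
  · intro z _ w _ h
    rw [← sq_sq z, ← sq_sq w, h]
  · intro s hs
    exact ⟨s ^ 2, im_sq_pos hs, sq_of_sq ⟨hs.1.le, hs.2.le⟩⟩

theorem differentiableAt_sq {z : ℂ} (hz : 0 < z.im) : DifferentiableAt ℂ sq z := by
  have h := ((hasDerivAt_id z).cpow_const (c := (2⁻¹ : ℂ)) (mem_slitPlane_of_im_pos hz)).differentiableAt
  exact h

theorem continuousWithinAt_sq {z : ℂ} (hz : 0 ≤ z.im) :
    ContinuousWithinAt sq {z : ℂ | 0 ≤ z.im} z := by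
  by_cases h0 : z = 0
  · rw [h0]
    have h1 : ContinuousAt (fun x : ℂ => x ^ (2⁻¹ : ℂ)) 0 :=
      continuousAt_cpow_const_of_re_pos (Or.inl (by simp)) (by norm_num)
    exact h1.continuousWithinAt
  · have h1 := ((continuousWithinAt_log hz h0).mul (continuousWithinAt_const (b := (2⁻¹ : ℂ)))).cexp
    refine h1.congr_of_eventuallyEq ?_ (sq_eq_exp h0)
    have h2 : ∀ᶠ w in 𝓝[{z : ℂ | 0 ≤ z.im}] z, w ≠ 0 :=
      (eventually_ne_nhds h0).filter_mono nhdsWithin_le_nhds
    filter_upwards [h2] with w hw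
    exact sq_eq_exp hw

theorem sq_ofReal_sq {t : ℝ} (ht : 0 ≤ t) : sq ((t ^ 2 : ℝ) : ℂ) = t := by
  rw [ofReal_pow]
  exact sq_of_sq ⟨by simpa using ht, by simp⟩

theorem sq_ofReal {x : ℝ} (hx : 0 ≤ x) : sq (x : ℂ) = (√x : ℝ) := by
  have := sq_ofReal_sq (Real.sqrt_nonneg x)
  rwa [Real.sq_sqrt hx] at this

theorem sq_ofReal_neg {x : ℝ} (hx : x ≤ 0) : sq (x : ℂ) = I * (√(-x) : ℝ) := by
  have h1 : sq ((I * (√(-x) : ℝ)) ^ 2) = I * (√(-x) : ℝ) :=
    sq_of_sq ⟨by simp, by simp [Real.sqrt_nonneg]⟩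
  have h2 : (I * ((√(-x) : ℝ) : ℂ)) ^ 2 = (x : ℂ) := by
    rw [mul_pow, I_sq, ← ofReal_pow, Real.sq_sqrt (by linarith)]
    push_cast
    ring
  rwa [h2] at h1

theorem tendsto_sq_cocompact : Tendsto sq (cocompact ℂ) (cocompact ℂ) := by
  rw [← Metric.cobounded_eq_cocompact, ← tendsto_norm_atTop_iff_cobounded]
  have h1 : Tendsto (fun z : ℂ => √‖z‖) (Bornology.cobounded ℂ) atTop :=
    Real.tendsto_sqrt_atTop.comp tendsto_norm_cobounded_atTop
  refine h1.congr (fun z => ?_)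
  have h2 : ‖z‖ = ‖sq z‖ ^ 2 := by rw [← norm_pow, sq_sq]
  rw [h2, Real.sqrt_sq (norm_nonneg _)]

/-! ### the conformal map on the half-plane -/

/-- the conformal map of the upper half-plane onto the L-shaped corridor -/
def phi (W H : ℝ) (z : ℂ) : ℂ := psi W H (sq z)

/-- `φ` is a conformal bijection of the upper half-plane onto the L-shaped corridor
`{0 < re, im < H} ∖ {re ≥ W, im ≤ 0}` (a leg of width `W` going down and a leg of width `H` going to the
right), continuous up to the real line except at `-W²` and `H²`, which maps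
* `(-∞, -W²)` onto the left wall `re = 0`, `im < H`,
* `(-W², 0)` onto the right wall `re = W`, `im < 0` of the lower leg,
* `0` to the inner corner `W`,
* `(0, H²)` onto the lower wall `im = 0`, `re > W` of the right leg,
* `(H², ∞)` onto the upper wall `im = H`, `re > 0`;
the points `-W²`, `H²`, `∞` correspond to the lower end, the right end and the outer corner `i H`. -/
structure IsCorridorMap (W H : ℝ) (φ : ℂ → ℂ) : Prop where
  holomorphic : DifferentiableOn ℂ φ {z | 0 < z.im}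
  bijective : BijOn φ {z | 0 < z.im} {w | 0 < w.re ∧ w.im < H ∧ ¬ (W ≤ w.re ∧ w.im ≤ 0)}
  continuous : ContinuousOn φ ({z | 0 ≤ z.im} \ {-(W : ℂ) ^ 2, (H : ℂ) ^ 2})
  left_wall : ∀ x : ℝ, x < -W ^ 2 → (φ x).re = 0
  left_wall_bij : BijOn (fun x : ℝ => (φ x).im) (Iio (-W ^ 2)) (Iio H)
  left_wall_anti : StrictAntiOn (fun x : ℝ => (φ x).im) (Iio (-W ^ 2))
  leg_wall : ∀ x : ℝ, -W ^ 2 < x → x < 0 → (φ x).re = W
  leg_wall_bij : BijOn (fun x : ℝ => (φ x).im) (Ioo (-W ^ 2) 0) (Iio 0)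
  leg_wall_mono : StrictMonoOn (fun x : ℝ => (φ x).im) (Ioc (-W ^ 2) 0)
  corner : φ 0 = W
  bottom_wall : ∀ x : ℝ, 0 < x → x < H ^ 2 → (φ x).im = 0
  bottom_wall_bij : BijOn (fun x : ℝ => (φ x).re) (Ioo 0 (H ^ 2)) (Ioi W)
  bottom_wall_mono : StrictMonoOn (fun x : ℝ => (φ x).re) (Ico 0 (H ^ 2))
  top_wall : ∀ x : ℝ, H ^ 2 < x → (φ x).im = H
  top_wall_bij : BijOn (fun x : ℝ => (φ x).re) (Ioi (H ^ 2)) (Ioi 0)
  top_wall_anti : StrictAntiOn (fun x : ℝ => (φ x).re) (Ioi (H ^ 2))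
  end_lower : Tendsto (fun z : ℂ => (φ z).im) (𝓝[{z | 0 ≤ z.im} \ {-(W : ℂ) ^ 2}] (-(W : ℂ) ^ 2))
    atBot
  end_right : Tendsto (fun z : ℂ => (φ z).re) (𝓝[{z | 0 ≤ z.im} \ {(H : ℂ) ^ 2}] ((H : ℂ) ^ 2)) atTop
  outer_corner : Tendsto φ (cocompact ℂ) (𝓝 (I * H))

theorem sq_H {H : ℝ} (hH : 0 < H) : sq ((H : ℂ) ^ 2) = H := by
  have := sq_of_sq (s := (H : ℂ)) ⟨by simpa using hH.le, by simp⟩
  exact this

theorem sq_W {W : ℝ} (hW : 0 < W) : sq (-(W : ℂ) ^ 2) = I * W := by
  have h1 := sq_of_sq (s := I * (W : ℂ)) ⟨by simp, by simpa using hW.le⟩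
  have h2 : (I * (W : ℂ)) ^ 2 = -(W : ℂ) ^ 2 := by rw [mul_pow, I_sq]; ring
  rwa [h2] at h1

theorem phi_re_ofReal {W H : ℝ} (hW : 0 < W) (hH : 0 < H) {x : ℝ} (h0 : 0 ≤ x) (h1 : x ≠ H ^ 2) :
    (phi W H (x : ℂ)).re = bh W H (√x) := by
  rw [phi, sq_ofReal h0]
  apply psi_re_ofReal hW hH (Real.sqrt_nonneg x)
  intro h
  apply h1
  rw [← h, Real.sq_sqrt h0]

theorem phi_im_ofReal {W H : ℝ} (hW : 0 < W) (hH : 0 < H) {x : ℝ} (h0 : x ≤ 0) (h1 : x ≠ -W ^ 2) :
    (phi W H (x : ℂ)).im = H - bh H W (√(-x)) := by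
  rw [phi, sq_ofReal_neg h0]
  apply psi_im_I_mul hW hH (Real.sqrt_nonneg _)
  intro h
  apply h1
  rw [← h, Real.sq_sqrt (by linarith)]
  ring

theorem bijOn_sqrt_lt {H : ℝ} (hH : 0 < H) : BijOn (fun x : ℝ => √x) (Ioo 0 (H ^ 2)) (Ioo 0 H) := by
  refine ⟨fun x hx => ⟨Real.sqrt_pos.2 hx.1, ?_⟩, ?_, ?_⟩
  · rw [Real.sqrt_lt' hH]; exact hx.2
  · intro x hx y hy h
    have h' : √x = √y := h
    rw [← Real.sq_sqrt hx.1.le, h', Real.sq_sqrt hy.1.le]
  · intro t ht
    refine ⟨t ^ 2, ⟨pow_pos ht.1 2, ?_⟩, Real.sqrt_sq ht.1.le⟩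
    nlinarith [ht.1, ht.2]

theorem bijOn_sqrt_gt {H : ℝ} (hH : 0 < H) : BijOn (fun x : ℝ => √x) (Ioi (H ^ 2)) (Ioi H) := by
  refine ⟨fun x hx => ?_, ?_, ?_⟩
  · show H < √x
    rw [Real.lt_sqrt hH.le]; exact hx
  · intro x hx y hy h
    have h' : √x = √y := h
    have hx' : 0 ≤ x := (sq_nonneg H).trans (mem_Ioi.1 hx).le
    have hy' : 0 ≤ y := (sq_nonneg H).trans (mem_Ioi.1 hy).le
    rw [← Real.sq_sqrt hx', h', Real.sq_sqrt hy']
  · intro t ht
    have ht' : H < t := ht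
    refine ⟨t ^ 2, ?_, Real.sqrt_sq (by linarith)⟩
    show H ^ 2 < t ^ 2
    nlinarith

theorem bijOn_neg_lt (W : ℝ) : BijOn (fun x : ℝ => -x) (Ioo (-W ^ 2) 0) (Ioo 0 (W ^ 2)) := by
  refine ⟨fun x hx => ⟨by linarith [hx.2], by linarith [hx.1]⟩, fun x _ y _ h => neg_injective h,
    fun t ht => ⟨-t, ⟨by linarith [ht.2], by linarith [ht.1]⟩, neg_neg t⟩⟩

theorem bijOn_neg_gt (W : ℝ) : BijOn (fun x : ℝ => -x) (Iio (-W ^ 2)) (Ioi (W ^ 2)) := by
  refine ⟨fun x hx => ?_, fun x _ y _ h => neg_injective h, fun t ht => ⟨-t, ?_, neg_neg t⟩⟩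
  · have hx' : x < -W ^ 2 := hx
    show W ^ 2 < -x
    linarith
  · have ht' : W ^ 2 < t := ht
    show -t < -W ^ 2
    linarith

theorem bijOn_sub_lt (H : ℝ) : BijOn (fun x : ℝ => H - x) (Ioi H) (Iio 0) := by
  refine ⟨fun x hx => ?_, fun x _ y _ h => sub_right_injective h,
    fun t ht => ⟨H - t, ?_, sub_sub_cancel H t⟩⟩
  · have hx' : H < x := hx
    show H - x < 0
    linarith
  · have ht' : t < 0 := ht
    show H < H - t
    linarith

theorem bijOn_sub_gt (H : ℝ) : BijOn (fun x : ℝ => H - x) (Ioi 0) (Iio H) := by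
  refine ⟨fun x hx => ?_, fun x _ y _ h => sub_right_injective h,
    fun t ht => ⟨H - t, ?_, sub_sub_cancel H t⟩⟩
  · have hx' : 0 < x := hx
    show H - x < H
    linarith
  · have ht' : t < H := ht
    show 0 < H - t
    linarith

theorem isCorridorMap_phi {W H : ℝ} (hW : 0 < W) (hH : 0 < H) : IsCorridorMap W H (phi W H) where
  holomorphic := fun z hz =>
    (((hasStrictDerivAt_psi hW hH (sq_mem_Q hz)).hasDerivAt.differentiableAt).comp z
      (differentiableAt_sq hz)).differentiableWithinAt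
  bijective := (bijOn_psi hW hH).comp bijOn_sq
  continuous := by
    intro z hz
    have hz0 : 0 ≤ z.im := hz.1
    have h1 : sq z ≠ I * W := by
      intro h
      apply hz.2
      left
      rw [← sq_sq z, h, mul_pow, I_sq]
      ring
    have h2 : sq z ≠ H := by
      intro h
      apply hz.2
      right
      rw [← sq_sq z, h]
      rfl
    have h3 := continuousWithinAt_psi hW hH (sq_mem_QC hz0) h1 h2
    have h4 : ContinuousWithinAt (phi W H) {z : ℂ | 0 ≤ z.im} z :=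
      ContinuousWithinAt.comp (f := sq) h3 (continuousWithinAt_sq hz0)
        (fun w hw => sq_mem_QC hw)
    exact h4.mono sdiff_subset
  left_wall := by
    intro x hx
    have hx0 : x ≤ 0 := by nlinarith [sq_nonneg W]
    rw [phi, sq_ofReal_neg hx0]
    apply psi_re_I_mul_gt hW hH
    rw [Real.lt_sqrt hW.le]
    linarith
  left_wall_bij := by
    have h := (bijOn_sub_gt H).comp ((bijOn_bh_gt hH hW).comp
      ((bijOn_sqrt_gt hW).comp (bijOn_neg_gt W)))
    refine h.congr (fun x hx => ?_)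
    have hx' : x < -W ^ 2 := hx
    exact (phi_im_ofReal hW hH (by nlinarith [sq_nonneg W]) hx'.ne).symm
  left_wall_anti := by
    intro x hx y hy hxy
    have hx' : x < -W ^ 2 := hx
    have hy' : y < -W ^ 2 := hy
    have hW2 := sq_nonneg W
    show (phi W H (y : ℂ)).im < (phi W H (x : ℂ)).im
    rw [phi_im_ofReal hW hH (by linarith) hx'.ne, phi_im_ofReal hW hH (by linarith) hy'.ne]
    have h1 : bh H W (√(-x)) < bh H W (√(-y)) := by
      apply strictAntiOn_bh hH hW
      · show W < √(-y)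
        rw [Real.lt_sqrt hW.le]; linarith
      · show W < √(-x)
        rw [Real.lt_sqrt hW.le]; linarith
      · exact Real.sqrt_lt_sqrt (by linarith) (by linarith)
    linarith
  leg_wall := by
    intro x hx hx0
    rw [phi, sq_ofReal_neg hx0.le]
    apply psi_re_I_mul_lt hW hH (Real.sqrt_nonneg _)
    rw [Real.sqrt_lt' hW]
    linarith
  leg_wall_bij := by
    have h := (bijOn_sub_lt H).comp ((bijOn_bh_lt hH hW).comp
      ((bijOn_sqrt_lt hW).comp (bijOn_neg_lt W)))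
    refine h.congr (fun x hx => ?_)
    exact (phi_im_ofReal hW hH hx.2.le hx.1.ne').symm
  leg_wall_mono := by
    intro x hx y hy hxy
    show (phi W H (x : ℂ)).im < (phi W H (y : ℂ)).im
    rw [phi_im_ofReal hW hH hx.2 hx.1.ne', phi_im_ofReal hW hH hy.2 hy.1.ne']
    have h1 : bh H W (√(-y)) < bh H W (√(-x)) := by
      apply strictMonoOn_bh hH hW
      · refine ⟨Real.sqrt_nonneg _, ?_⟩
        rw [Real.sqrt_lt' hW]; linarith [hy.1]
      · refine ⟨Real.sqrt_nonneg _, ?_⟩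
        rw [Real.sqrt_lt' hW]; linarith [hx.1]
      · exact Real.sqrt_lt_sqrt (by linarith [hy.2]) (by linarith)
    linarith
  corner := by rw [phi, sq_zero, psi_zero hW hH]
  bottom_wall := by
    intro x h0 hx
    rw [phi, sq_ofReal h0.le]
    apply psi_im_ofReal_lt hW hH (Real.sqrt_nonneg _)
    rw [Real.sqrt_lt' hH]
    exact hx
  bottom_wall_bij := by
    have h := (bijOn_bh_lt hW hH).comp (bijOn_sqrt_lt hH)
    refine h.congr (fun x hx => ?_)
    exact (phi_re_ofReal hW hH hx.1.le hx.2.ne).symm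
  bottom_wall_mono := by
    intro x hx y hy hxy
    show (phi W H (x : ℂ)).re < (phi W H (y : ℂ)).re
    rw [phi_re_ofReal hW hH hx.1 hx.2.ne, phi_re_ofReal hW hH hy.1 hy.2.ne]
    apply strictMonoOn_bh hW hH
    · refine ⟨Real.sqrt_nonneg _, ?_⟩
      rw [Real.sqrt_lt' hH]; exact hx.2
    · refine ⟨Real.sqrt_nonneg _, ?_⟩
      rw [Real.sqrt_lt' hH]; exact hy.2
    · exact Real.sqrt_lt_sqrt hx.1 hxy
  top_wall := by
    intro x hx
    have hx0 : 0 ≤ x := (sq_nonneg H).trans hx.le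
    rw [phi, sq_ofReal hx0]
    apply psi_im_ofReal_gt hW hH
    rw [Real.lt_sqrt hH.le]
    exact hx
  top_wall_bij := by
    have h := (bijOn_bh_gt hW hH).comp (bijOn_sqrt_gt hH)
    refine h.congr (fun x hx => ?_)
    have hx' : H ^ 2 < x := hx
    exact (phi_re_ofReal hW hH ((sq_nonneg H).trans hx'.le) hx'.ne').symm
  top_wall_anti := by
    intro x hx y hy hxy
    have hx' : H ^ 2 < x := hx
    have hy' : H ^ 2 < y := hy
    have hH2 := sq_nonneg H
    show (phi W H (y : ℂ)).re < (phi W H (x : ℂ)).re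
    rw [phi_re_ofReal hW hH (by linarith) hx'.ne', phi_re_ofReal hW hH (by linarith) hy'.ne']
    apply strictAntiOn_bh hW hH
    · show H < √x
      rw [Real.lt_sqrt hH.le]; exact hx'
    · show H < √y
      rw [Real.lt_sqrt hH.le]; exact hy'
    · exact Real.sqrt_lt_sqrt (by linarith) hxy
  end_lower := by
    have hm : (-(W : ℂ) ^ 2) ∈ {z : ℂ | 0 ≤ z.im} := by
      show 0 ≤ (-(W : ℂ) ^ 2).im
      rw [← ofReal_pow, neg_im, ofReal_im, neg_zero]
    have h1 : Tendsto sq (𝓝[{z | 0 ≤ z.im} \ {-(W : ℂ) ^ 2}] (-(W : ℂ) ^ 2)) (𝓝[≠] (I * W)) := by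
      rw [tendsto_nhdsWithin_iff]
      refine ⟨?_, ?_⟩
      · have := (continuousWithinAt_sq hm).tendsto
        rw [sq_W hW] at this
        exact this.mono_left (nhdsWithin_mono _ sdiff_subset)
      · filter_upwards [self_mem_nhdsWithin] with z hz h
        apply hz.2
        show z = -(W : ℂ) ^ 2
        rw [← sq_sq z, h, mul_pow, I_sq]
        ring
    exact (tendsto_im_psi hW hH).comp h1
  end_right := by
    have hm : ((H : ℂ) ^ 2) ∈ {z : ℂ | 0 ≤ z.im} := by
      show 0 ≤ ((H : ℂ) ^ 2).im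
      rw [← ofReal_pow, ofReal_im]
    have h1 : Tendsto sq (𝓝[{z | 0 ≤ z.im} \ {(H : ℂ) ^ 2}] ((H : ℂ) ^ 2)) (𝓝[≠] (H : ℂ)) := by
      rw [tendsto_nhdsWithin_iff]
      refine ⟨?_, ?_⟩
      · have := (continuousWithinAt_sq hm).tendsto
        rw [sq_H hH] at this
        exact this.mono_left (nhdsWithin_mono _ sdiff_subset)
      · filter_upwards [self_mem_nhdsWithin] with z hz h
        apply hz.2
        show z = (H : ℂ) ^ 2
        rw [← sq_sq z, h]
    exact (tendsto_re_psi hW hH).comp h1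
  outer_corner := (tendsto_psi_cocompact W H).comp tendsto_sq_cocompact

theorem exists_isCorridorMap {W H : ℝ} (hW : 0 < W) (hH : 0 < H) :
    ∃ φ : ℂ → ℂ, IsCorridorMap W H φ := ⟨phi W H, isCorridorMap_phi hW hH⟩

end

end Pool.Agent.Helper34.LConf
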