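import Mathlib

/-!
# The conformal map of the L-shaped corridor, part 1: the map on the quadrant (MP_35f495_pr, item E4)

`psi W H s = i H - (H/π) log ((s-H)/(s+H)) - i (W/π) log ((s+iW)/(s-iW))` maps the open first quadrant
conformally onto the L-shaped corridor `{re > 0, im < H}` minus `{re ≥ W, im ≤ 0}`.
-/

set_option autoImplicit false

open Complex Set Filter Topology

namespace Pool.Agent.Helper34.LConf

noncomputable section

/-- the open first quadrant -/
def Q : Set ℂ := {s | 0 < s.re ∧ 0 < s.im}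

/-- the closed first quadrant -/
def QC : Set ℂ := {s | 0 ≤ s.re ∧ 0 ≤ s.im}

/-- the L-shaped corridor -/
def LD (W H : ℝ) : Set ℂ := {w | 0 < w.re ∧ w.im < H ∧ ¬ (W ≤ w.re ∧ w.im ≤ 0)}

def A (H : ℝ) (s : ℂ) : ℂ := (s - H) / (s + H)

def C (W : ℝ) (s : ℂ) : ℂ := (s + I * W) / (s - I * W)

def psi (W H : ℝ) (s : ℂ) : ℂ :=
  I * H - ((H / Real.pi : ℝ) : ℂ) * log (A H s) - I * (((W / Real.pi : ℝ) : ℂ) * log (C W s))

theorem psi_re (W H : ℝ) (s : ℂ) :
    (psi W H s).re = -(H / Real.pi) * Real.log ‖A H s‖ + W / Real.pi * arg (C W s) := by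
  have h1 : (I * (H : ℂ)).re = 0 := by simp
  have h2 : (((H / Real.pi : ℝ) : ℂ) * log (A H s)).re = H / Real.pi * Real.log ‖A H s‖ := by
    rw [re_ofReal_mul, log_re]
  have h3 : (I * (((W / Real.pi : ℝ) : ℂ) * log (C W s))).re = - (W / Real.pi * arg (C W s)) := by
    rw [I_mul_re, im_ofReal_mul, log_im]
  rw [psi, sub_re, sub_re, h1, h2, h3]
  ring

theorem psi_im (W H : ℝ) (s : ℂ) :
    (psi W H s).im = H - H / Real.pi * arg (A H s) - W / Real.pi * Real.log ‖C W s‖ := by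
  have h1 : (I * (H : ℂ)).im = H := by simp
  have h2 : (((H / Real.pi : ℝ) : ℂ) * log (A H s)).im = H / Real.pi * arg (A H s) := by
    rw [im_ofReal_mul, log_im]
  have h3 : (I * (((W / Real.pi : ℝ) : ℂ) * log (C W s))).im = W / Real.pi * Real.log ‖C W s‖ := by
    rw [I_mul_im, re_ofReal_mul, log_re]
  rw [psi, sub_im, sub_im, h1, h2, h3]

/-! ### the two Moebius maps -/

theorem add_ne {H : ℝ} (hH : 0 < H) {s : ℂ} (hs : 0 ≤ s.re) : s + H ≠ 0 := by
  intro h
  have := congrArg Complex.re h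
  simp at this
  linarith

theorem addI_ne {W : ℝ} (hW : 0 < W) {s : ℂ} (hs : 0 ≤ s.im) : s + I * W ≠ 0 := by
  intro h
  have := congrArg Complex.im h
  simp at this
  linarith

theorem A_im (H : ℝ) (s : ℂ) : (A H s).im = 2 * H * s.im / normSq (s + H) := by
  rw [A, div_im]
  simp
  ring

theorem C_im (W : ℝ) (s : ℂ) : (C W s).im = 2 * W * s.re / normSq (s - I * W) := by
  rw [C, div_im]
  simp
  ring

theorem normSq_A (H : ℝ) (s : ℂ) : normSq (A H s) = normSq (s - H) / normSq (s + H) := by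
  rw [A, normSq_div]

theorem normSq_C (W : ℝ) (s : ℂ) : normSq (C W s) = normSq (s + I * W) / normSq (s - I * W) := by
  rw [C, normSq_div]

theorem normSq_add_sub (H : ℝ) (s : ℂ) : normSq (s + H) - normSq (s - H) = 4 * H * s.re := by
  rw [normSq_apply, normSq_apply]
  simp
  ring

theorem normSq_addI_subI (W : ℝ) (s : ℂ) :
    normSq (s + I * W) - normSq (s - I * W) = 4 * W * s.im := by
  rw [normSq_apply, normSq_apply]
  simp
  ring

theorem A_im_pos {H : ℝ} (hH : 0 < H) {s : ℂ} (hs : s ∈ Q) : 0 < (A H s).im := by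
  rw [A_im]
  have h1 : 0 < normSq (s + H) := normSq_pos.2 (add_ne hH hs.1.le)
  have h2 := hs.2
  positivity

theorem subI_ne {W : ℝ} {s : ℂ} (hs : s ∈ Q) : s - I * W ≠ 0 := by
  intro h
  have h1 := congrArg Complex.re h
  have h2 := hs.1
  simp at h1
  linarith

theorem sub_ne {H : ℝ} {s : ℂ} (hs : s ∈ Q) : s - H ≠ 0 := by
  intro h
  have h1 := congrArg Complex.im h
  have h2 := hs.2
  simp at h1
  linarith

theorem C_im_pos {W : ℝ} (hW : 0 < W) {s : ℂ} (hs : s ∈ Q) : 0 < (C W s).im := by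
  rw [C_im]
  have h1 : 0 < normSq (s - I * W) := normSq_pos.2 (subI_ne hs)
  have h2 := hs.1
  positivity

theorem A_im_nonneg {H : ℝ} (hH : 0 < H) {s : ℂ} (hs : s ∈ QC) : 0 ≤ (A H s).im := by
  rw [A_im]
  have h2 := hs.2
  have h1 := normSq_nonneg (s + H)
  positivity

theorem C_im_nonneg {W : ℝ} (hW : 0 < W) {s : ℂ} (hs : s ∈ QC) : 0 ≤ (C W s).im := by
  rw [C_im]
  have h2 := hs.1
  have h1 := normSq_nonneg (s - I * W)
  positivity

theorem norm_A_lt {H : ℝ} (hH : 0 < H) {s : ℂ} (hs : 0 < s.re) : ‖A H s‖ < 1 := by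
  have h1 : 0 < normSq (s + H) := normSq_pos.2 (add_ne hH hs.le)
  have h2 : normSq (A H s) < 1 := by
    rw [normSq_A, div_lt_one h1]
    have := normSq_add_sub H s
    have h3 : 0 < 4 * H * s.re := by positivity
    linarith
  rw [normSq_eq_norm_sq] at h2
  nlinarith [norm_nonneg (A H s)]

theorem one_lt_norm_C {W : ℝ} (hW : 0 < W) {s : ℂ} (hs : 0 < s.im) (h : s ≠ I * W) :
    1 < ‖C W s‖ := by
  have h1 : 0 < normSq (s - I * W) := normSq_pos.2 (sub_ne_zero.2 h)
  have h2 : 1 < normSq (C W s) := by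
    rw [normSq_C, one_lt_div h1]
    have := normSq_addI_subI W s
    have h3 : 0 < 4 * W * s.im := by positivity
    linarith
  rw [normSq_eq_norm_sq] at h2
  nlinarith [norm_nonneg (C W s)]

theorem ne_IW {W : ℝ} {s : ℂ} (hs : s ∈ Q) : s ≠ I * W := sub_ne_zero.1 (subI_ne hs)

theorem ne_H {H : ℝ} {s : ℂ} (hs : s ∈ Q) : s ≠ H := sub_ne_zero.1 (sub_ne hs)

theorem A_ne {H : ℝ} (hH : 0 < H) {s : ℂ} (hs : 0 ≤ s.re) (h : s ≠ H) : A H s ≠ 0 :=
  div_ne_zero (sub_ne_zero.2 h) (add_ne hH hs)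

theorem C_ne {W : ℝ} (hW : 0 < W) {s : ℂ} (hs : 0 ≤ s.im) (h : s ≠ I * W) : C W s ≠ 0 :=
  div_ne_zero (addI_ne hW hs) (sub_ne_zero.2 h)

theorem arg_pos_of_im_pos {z : ℂ} (h : 0 < z.im) : 0 < arg z := by
  have h1 : 0 ≤ arg z := arg_nonneg_iff.2 h.le
  rcases h1.lt_or_eq with h2 | h2
  · exact h2
  · exact absurd (arg_eq_zero_iff.1 h2.symm).2 h.ne'

theorem arg_lt_pi_of_im_pos {z : ℂ} (h : 0 < z.im) : arg z < Real.pi :=
  arg_lt_pi_iff.2 (Or.inr h.ne')

theorem mem_slitPlane_of_im_pos {z : ℂ} (h : 0 < z.im) : z ∈ slitPlane := by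
  rw [mem_slitPlane_iff]; exact Or.inr h.ne'

theorem psi_re_pos {W H : ℝ} (hW : 0 < W) (hH : 0 < H) {s : ℂ} (hs : s ∈ Q) :
    0 < (psi W H s).re := by
  rw [psi_re]
  have hpi := Real.pi_pos
  have h1 := arg_pos_of_im_pos (C_im_pos hW hs)
  have h2 : Real.log ‖A H s‖ < 0 :=
    Real.log_neg (norm_pos_iff.2 (A_ne hH hs.1.le (ne_H hs))) (norm_A_lt hH hs.1)
  have h3 : 0 < W / Real.pi * arg (C W s) := by positivity
  have h4 : 0 < H / Real.pi := by positivity
  nlinarith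

theorem psi_im_lt {W H : ℝ} (hW : 0 < W) (hH : 0 < H) {s : ℂ} (hs : s ∈ Q) :
    (psi W H s).im < H := by
  rw [psi_im]
  have hpi := Real.pi_pos
  have h1 := arg_pos_of_im_pos (A_im_pos hH hs)
  have h2 : 0 < Real.log ‖C W s‖ := Real.log_pos (one_lt_norm_C hW hs.2 (ne_IW hs))
  have h3 : 0 < H / Real.pi * arg (A H s) := by positivity
  have h4 : 0 < W / Real.pi * Real.log ‖C W s‖ := by positivity
  linarith

/-- `sinh (-log r) = (1 - r²)/(2 r)` -/
theorem sinh_neg_log {r : ℝ} (hr : 0 < r) : Real.sinh (-Real.log r) = (1 - r ^ 2) / (2 * r) := by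
  rw [Real.sinh_neg, Real.sinh_log hr]
  field_simp
  ring

/-- the key identity `sinh x₁ sinh x₂ = sin y₁ sin y₂` -/
theorem key_id {W H : ℝ} (hW : 0 < W) (hH : 0 < H) {s : ℂ} (hs : s ∈ Q) :
    Real.sinh (-Real.log ‖A H s‖) * Real.sinh (Real.log ‖C W s‖) =
      Real.sin (arg (A H s)) * Real.sin (arg (C W s)) := by
  have hA : 0 < ‖A H s‖ := norm_pos_iff.2 (A_ne hH hs.1.le (ne_H hs))
  have hC : 0 < ‖C W s‖ := norm_pos_iff.2 (C_ne hW hs.2.le (ne_IW hs))
  rw [sinh_neg_log hA, Real.sinh_log hC, sin_arg, sin_arg, A_im, C_im]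
  have h1 : 0 < normSq (s + H) := normSq_pos.2 (add_ne hH hs.1.le)
  have h2 : 0 < normSq (s - I * W) := normSq_pos.2 (subI_ne hs)
  have e1 : 1 - ‖A H s‖ ^ 2 = 4 * H * s.re / normSq (s + H) := by
    rw [← normSq_eq_norm_sq, normSq_A, ← normSq_add_sub]
    field_simp
  have e2 : (‖C W s‖ - ‖C W s‖⁻¹) / 2 = (‖C W s‖ ^ 2 - 1) / (2 * ‖C W s‖) := by
    field_simp
  have e3 : ‖C W s‖ ^ 2 - 1 = 4 * W * s.im / normSq (s - I * W) := by
    rw [← normSq_eq_norm_sq, normSq_C, ← normSq_addI_subI]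
    field_simp
  rw [e2, e1, e3]
  field_simp
  ring

theorem lt_sinh {x : ℝ} (hx : 0 < x) : x < Real.sinh x := Real.self_lt_sinh_iff.2 hx

theorem psi_avoid {W H : ℝ} (hW : 0 < W) (hH : 0 < H) {s : ℂ} (hs : s ∈ Q) :
    ¬ (W ≤ (psi W H s).re ∧ (psi W H s).im ≤ 0) := by
  rintro ⟨h1, h2⟩
  rw [psi_re] at h1
  rw [psi_im] at h2
  have hpi := Real.pi_pos
  have hid := key_id hW hH hs
  set x1 := -Real.log ‖A H s‖ with hx1
  set x2 := Real.log ‖C W s‖ with hx2
  have a0 := arg_pos_of_im_pos (A_im_pos hH hs)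
  have a1 := arg_lt_pi_of_im_pos (A_im_pos hH hs)
  have c0 := arg_pos_of_im_pos (C_im_pos hW hs)
  have c1 := arg_lt_pi_of_im_pos (C_im_pos hW hs)
  have hx1p : 0 < x1 := by
    have : Real.log ‖A H s‖ < 0 :=
      Real.log_neg (norm_pos_iff.2 (A_ne hH hs.1.le (ne_H hs))) (norm_A_lt hH hs.1)
    linarith
  have hx2p : 0 < x2 := Real.log_pos (one_lt_norm_C hW hs.2 (ne_IW hs))
  set y1 := Real.pi - arg (A H s) with hy1
  set y2 := Real.pi - arg (C W s) with hy2
  have hy1p : 0 < y1 := by linarith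
  have hy2p : 0 < y2 := by linarith
  have k1 : W * y2 ≤ H * x1 := by
    have e1 : Real.log ‖A H s‖ = -x1 := by rw [hx1]; ring
    have e2 : arg (C W s) = Real.pi - y2 := by rw [hy2]; ring
    rw [e1, e2] at h1
    have e3 : -(H / Real.pi) * -x1 + W / Real.pi * (Real.pi - y2) - W
        = (H * x1 - W * y2) / Real.pi := by field_simp; ring
    have e4 : 0 ≤ (H * x1 - W * y2) / Real.pi := by linarith
    have := mul_nonneg e4 hpi.le
    rw [div_mul_cancel₀ _ hpi.ne'] at this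
    linarith
  have k2 : H * y1 ≤ W * x2 := by
    have e1 : arg (A H s) = Real.pi - y1 := by rw [hy1]; ring
    rw [e1] at h2
    have e3 : H - H / Real.pi * (Real.pi - y1) - W / Real.pi * x2
        = (H * y1 - W * x2) / Real.pi := by field_simp; ring
    rw [e3] at h2
    have := mul_nonpos_of_nonpos_of_nonneg h2 hpi.le
    rw [div_mul_cancel₀ _ hpi.ne'] at this
    linarith
  have s1 : Real.sin (arg (A H s)) < y1 := by
    rw [← Real.sin_pi_sub, ← hy1]; exact Real.sin_lt hy1p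
  have s2 : Real.sin (arg (C W s)) < y2 := by
    rw [← Real.sin_pi_sub, ← hy2]; exact Real.sin_lt hy2p
  have s1p : 0 < Real.sin (arg (A H s)) := Real.sin_pos_of_pos_of_lt_pi a0 a1
  have s2p : 0 < Real.sin (arg (C W s)) := Real.sin_pos_of_pos_of_lt_pi c0 c1
  have q1 : x1 * x2 < Real.sinh x1 * Real.sinh x2 :=
    mul_lt_mul'' (lt_sinh hx1p) (lt_sinh hx2p) hx1p.le hx2p.le
  have q2 : Real.sin (arg (A H s)) * Real.sin (arg (C W s)) < y1 * y2 :=
    mul_lt_mul'' s1 s2 s1p.le s2p.le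
  have q3 : x1 * x2 < y1 * y2 := by rw [hid] at q1; exact q1.trans q2
  -- `W y₂ ≤ H x₁` and `H y₁ ≤ W x₂`
  have q4 : (W * y2) * (H * y1) ≤ (H * x1) * (W * x2) :=
    mul_le_mul k1 k2 (by positivity) (by positivity)
  have q5 : 0 < W * H := by positivity
  nlinarith

theorem mapsTo_psi {W H : ℝ} (hW : 0 < W) (hH : 0 < H) : MapsTo (psi W H) Q (LD W H) :=
  fun _ hs => ⟨psi_re_pos hW hH hs, psi_im_lt hW hH hs, psi_avoid hW hH hs⟩

/-! ### derivative and injectivity -/

/-- the derivative of `psi` -/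
def dpsi (W H : ℝ) (s : ℂ) : ℂ :=
  -((2 / Real.pi : ℝ) : ℂ) * ((H : ℂ) ^ 2 / (s ^ 2 - (H : ℂ) ^ 2) + (W : ℂ) ^ 2 / (s ^ 2 + (W : ℂ) ^ 2))

theorem hasStrictDerivAt_psi {W H : ℝ} (hW : 0 < W) (hH : 0 < H) {s : ℂ} (hs : s ∈ Q) :
    HasStrictDerivAt (psi W H) (dpsi W H s) s := by
  have n1 := sub_ne (H := H) hs
  have n2 := add_ne hH hs.1.le
  have n3 := subI_ne (W := W) hs
  have n4 := addI_ne hW hs.2.le
  have hpi : (Real.pi : ℂ) ≠ 0 := by exact_mod_cast Real.pi_ne_zero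
  have dA : HasStrictDerivAt (A H) ((1 * (s + H) - (s - H) * 1) / (s + H) ^ 2) s := by
    have h1 : HasStrictDerivAt (fun w : ℂ => w - H) 1 s := (hasStrictDerivAt_id s).sub_const _
    have h2 : HasStrictDerivAt (fun w : ℂ => w + H) 1 s := (hasStrictDerivAt_id s).add_const _
    exact h1.div h2 n2
  have dC : HasStrictDerivAt (C W) ((1 * (s - I * W) - (s + I * W) * 1) / (s - I * W) ^ 2) s := by
    have h1 : HasStrictDerivAt (fun w : ℂ => w + I * W) 1 s := (hasStrictDerivAt_id s).add_const _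
    have h2 : HasStrictDerivAt (fun w : ℂ => w - I * W) 1 s := (hasStrictDerivAt_id s).sub_const _
    exact h1.div h2 n3
  have lA := dA.clog (mem_slitPlane_of_im_pos (A_im_pos hH hs))
  have lC := dC.clog (mem_slitPlane_of_im_pos (C_im_pos hW hs))
  have h3 := ((hasStrictDerivAt_const s (I * (H : ℂ))).sub
    (lA.const_mul (((H / Real.pi : ℝ) : ℂ)))).sub
    ((lC.const_mul (((W / Real.pi : ℝ) : ℂ))).const_mul I)
  have h4 : HasStrictDerivAt (psi W H) (0 - ((H / Real.pi : ℝ) : ℂ) *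
      ((1 * (s + H) - (s - H) * 1) / (s + H) ^ 2 / A H s) - I * (((W / Real.pi : ℝ) : ℂ) *
      ((1 * (s - I * W) - (s + I * W) * 1) / (s - I * W) ^ 2 / C W s))) s := h3
  convert h4 using 1
  have e1 : s ^ 2 - (H : ℂ) ^ 2 = (s - H) * (s + H) := by ring
  have e2 : s ^ 2 + (W : ℂ) ^ 2 = (s - I * W) * (s + I * W) := by
    have : (I : ℂ) ^ 2 = -1 := I_sq
    linear_combination ((W : ℂ) ^ 2) * this
  have f1 : (1 * (s + H) - (s - H) * 1) / (s + H) ^ 2 / A H s = 2 * H / (s ^ 2 - (H : ℂ) ^ 2) := by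
    rw [A, e1]
    field_simp
    ring
  have f2 : (1 * (s - I * W) - (s + I * W) * 1) / (s - I * W) ^ 2 / C W s
      = -(2 * I * W) / (s ^ 2 + (W : ℂ) ^ 2) := by
    rw [C, e2]
    field_simp
    ring
  have g1 : s ^ 2 - (H : ℂ) ^ 2 ≠ 0 := by rw [e1]; exact mul_ne_zero n1 n2
  have g2 : s ^ 2 + (W : ℂ) ^ 2 ≠ 0 := by rw [e2]; exact mul_ne_zero n3 n4
  rw [f1, f2, dpsi]
  push_cast
  field_simp
  linear_combination (-2 * (W : ℂ) ^ 2 * (s ^ 2 - (H : ℂ) ^ 2)) * I_sq

theorem div_im_neg {c : ℝ} (hc : 0 < c) {z : ℂ} (h : 0 < z.im) : ((c : ℂ) / z).im < 0 := by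
  rw [div_im]
  have h1 : 0 < normSq z := normSq_pos.2 (by rintro rfl; simp at h)
  simp
  positivity

theorem dpsi_im_pos {W H : ℝ} (hW : 0 < W) (hH : 0 < H) {s : ℂ} (hs : s ∈ Q) :
    0 < (dpsi W H s).im := by
  have e0 : (s ^ 2).im = 2 * s.re * s.im := by rw [sq, mul_im]; ring
  have e1 : 0 < (s ^ 2 - (H : ℂ) ^ 2).im := by
    rw [sub_im, e0]
    have : ((H : ℂ) ^ 2).im = 0 := by rw [← ofReal_pow, ofReal_im]
    rw [this]
    have := hs.1
    have := hs.2
    simp only [sub_zero]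
    positivity
  have e2 : 0 < (s ^ 2 + (W : ℂ) ^ 2).im := by
    rw [add_im, e0]
    have : ((W : ℂ) ^ 2).im = 0 := by rw [← ofReal_pow, ofReal_im]
    rw [this]
    have := hs.1
    have := hs.2
    simp only [add_zero]
    positivity
  have e3 := div_im_neg (c := H ^ 2) (by positivity) e1
  have e4 := div_im_neg (c := W ^ 2) (by positivity) e2
  rw [ofReal_pow] at e3 e4
  have hpi := Real.pi_pos
  rw [dpsi, ← ofReal_neg, im_ofReal_mul, add_im]
  have : 0 < 2 / Real.pi := by positivity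
  nlinarith

theorem injOn_psi {W H : ℝ} (hW : 0 < W) (hH : 0 < H) : InjOn (psi W H) Q := by
  intro z hz w hw hzw
  by_contra hne
  have hd : w - z ≠ 0 := sub_ne_zero.2 (Ne.symm hne)
  set p : ℝ → ℂ := fun t => z + t * (w - z) with hp
  have hpq : ∀ t ∈ Icc (0 : ℝ) 1, p t ∈ Q := by
    intro t ht
    have e1 : (p t).im = (1 - t) * z.im + t * w.im := by
      simp [hp]; ring
    have e2 : (p t).re = (1 - t) * z.re + t * w.re := by
      simp [hp]; ring
    have aux : ∀ x y : ℝ, 0 < x → 0 < y → 0 < (1 - t) * x + t * y := by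
      intro x y hx hy
      rcases ht.2.lt_or_eq with h1 | h1
      · have : 0 < (1 - t) * x := mul_pos (by linarith) hx
        have := mul_nonneg ht.1 hy.le
        linarith
      · rw [h1]; simpa using hy
    refine ⟨?_, ?_⟩
    · rw [e2]; exact aux _ _ hz.1 hw.1
    · rw [e1]; exact aux _ _ hz.2 hw.2
  have hpd : ∀ t : ℝ, HasDerivAt p (w - z) t := by
    intro t
    have h1 : HasDerivAt (fun t : ℝ => (t : ℂ)) 1 t := ofRealCLM.hasDerivAt
    have h2 := (h1.mul_const (w - z)).const_add z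
    simpa [hp] using h2
  set h : ℝ → ℝ := fun t => (psi W H (p t) / (w - z)).im with hh
  have hhd : ∀ t ∈ Icc (0 : ℝ) 1, HasDerivAt h ((dpsi W H (p t)).im) t := by
    intro t ht
    have h1 : HasDerivAt (fun t : ℝ => psi W H (p t)) (dpsi W H (p t) * (w - z)) t :=
      (hasStrictDerivAt_psi hW hH (hpq t ht)).hasDerivAt.comp t (hpd t)
    have h2 := h1.div_const (w - z)
    rw [mul_div_assoc, div_self hd, mul_one] at h2
    have h3 := imCLM.hasFDerivAt.comp_hasDerivAt t h2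
    simpa [hh, Function.comp_def] using h3
  have hcont : ContinuousOn h (Icc 0 1) := fun t ht => (hhd t ht).continuousAt.continuousWithinAt
  obtain ⟨c, hc, hc'⟩ := exists_hasDerivAt_eq_slope h
    (fun t => (dpsi W H (p t)).im) (zero_lt_one) hcont
    (fun t ht => hhd t ⟨ht.1.le, ht.2.le⟩)
  have h0 : h 0 = h 1 := by
    simp [hh, hp, hzw]
  rw [h0, sub_self, zero_div] at hc'
  exact absurd hc' (ne_of_gt (dpsi_im_pos hW hH (hpq c ⟨hc.1.le, hc.2.le⟩)))

theorem isOpen_Q : IsOpen Q :=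
  (isOpen_lt continuous_const continuous_re).inter (isOpen_lt continuous_const continuous_im)

theorem isOpen_image_psi {W H : ℝ} (hW : 0 < W) (hH : 0 < H) : IsOpen (psi W H '' Q) := by
  rw [isOpen_iff_mem_nhds]
  rintro _ ⟨z, hz, rfl⟩
  have hne : dpsi W H z ≠ 0 := by
    intro h0
    have := dpsi_im_pos hW hH hz
    rw [h0] at this
    simp at this
  rw [← (hasStrictDerivAt_psi hW hH hz).map_nhds_eq hne]
  exact image_mem_map (isOpen_Q.mem_nhds hz)

/-! ### continuity up to the boundary -/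

theorem continuousWithinAt_log {z : ℂ} (h : 0 ≤ z.im) (h0 : z ≠ 0) :
    ContinuousWithinAt log {z : ℂ | 0 ≤ z.im} z := by
  by_cases hz : z ∈ slitPlane
  · exact (continuousAt_clog hz).continuousWithinAt
  · rw [mem_slitPlane_iff] at hz
    push Not at hz
    have h1 : z.re < 0 := by
      rcases hz.1.lt_or_eq with h2 | h2
      · exact h2
      · exact absurd (Complex.ext h2 hz.2) h0
    exact continuousWithinAt_log_of_re_neg_of_im_zero h1 hz.2

theorem continuousAt_A {H : ℝ} (hH : 0 < H) {s : ℂ} (hs : 0 ≤ s.re) : ContinuousAt (A H) s :=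
  ((continuous_id.sub continuous_const).continuousAt).div
    ((continuous_id.add continuous_const).continuousAt) (add_ne hH hs)

theorem continuousAt_C {W : ℝ} {s : ℂ} (hs : s ≠ I * W) : ContinuousAt (C W) s :=
  ((continuous_id.add continuous_const).continuousAt).div
    ((continuous_id.sub continuous_const).continuousAt) (sub_ne_zero.2 hs)

theorem continuousWithinAt_psi {W H : ℝ} (hW : 0 < W) (hH : 0 < H) {s : ℂ} (hs : s ∈ QC)
    (h1 : s ≠ I * W) (h2 : s ≠ H) :
    ContinuousWithinAt (psi W H) QC s := by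
  have e1 : ContinuousWithinAt (fun w => log (A H w)) QC s := by
    have := continuousWithinAt_log (A_im_nonneg hH hs) (A_ne hH hs.1 h2)
    exact ContinuousWithinAt.comp (f := A H) this (continuousAt_A hH hs.1).continuousWithinAt
      (fun w hw => A_im_nonneg hH hw)
  have e2 : ContinuousWithinAt (fun w => log (C W w)) QC s := by
    have := continuousWithinAt_log (C_im_nonneg hW hs) (C_ne hW hs.2 h1)
    exact ContinuousWithinAt.comp (f := C W) this (continuousAt_C h1).continuousWithinAt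
      (fun w hw => C_im_nonneg hW hw)
  exact (continuousWithinAt_const.sub (continuousWithinAt_const.mul e1)).sub
    (continuousWithinAt_const.mul (continuousWithinAt_const.mul e2))

end

end Pool.Agent.Helper34.LConf
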